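import Pool.Agent.PFC.StmtsB3

/-!
Squad PFC, row NKY (helper81): the augmentation ideal of an ℓ-group is nilpotent, so vectors which span it modulo
its square generate the group algebra.
-/

set_option autoImplicit false

open scoped BigOperators

namespace Pool.Agent.PFC.B3.H81

open MvPolynomial

/-- if `U = X + U ^ 2` then `U ^ n` is in `X ^ n + U ^ (n + 1)` -/
theorem pow_le_sup {F A : Type*} [CommSemiring F] [Semiring A] [Algebra F A]
    (X U : Submodule F A) (h : X ⊔ U * U = U) (n : ℕ) : U ^ n ≤ X ^ n ⊔ U ^ (n + 1) := by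
  have hXU : X ≤ U := by
    rw [← h]
    exact le_sup_left
  induction n with
  | zero =>
    rw [pow_zero, pow_zero]
    exact le_sup_left
  | succ n ih =>
    calc U ^ (n + 1) = U ^ n * U := pow_succ U n
      _ ≤ (X ^ n ⊔ U ^ (n + 1)) * U := by
        gcongr
      _ = X ^ n * U ⊔ U ^ (n + 1 + 1) := by
        rw [Submodule.sup_mul, ← pow_succ]
      _ ≤ X ^ (n + 1) ⊔ U ^ (n + 1 + 1) := by
        refine sup_le ?_ le_sup_right
        calc X ^ n * U = X ^ n * (X ⊔ U * U) := by rw [h]
          _ = X ^ (n + 1) ⊔ X ^ n * (U * U) := by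
            rw [Submodule.mul_sup, ← pow_succ]
          _ ≤ X ^ (n + 1) ⊔ U ^ (n + 1 + 1) := by
            refine sup_le_sup le_rfl ?_
            calc X ^ n * (U * U) ≤ U ^ n * (U * U) := by
                  gcongr
              _ = U ^ (n + 1 + 1) := by
                  rw [pow_succ, pow_succ, mul_assoc]

/-- the span of the reduced monomials contains the subalgebra generated -/
theorem adjoin_le {F A I : Type*} [Field F] [CommRing A] [Algebra F A] [Fintype I]
    (q : I → ℕ) (x : I → A) (hq : ∀ i, 0 < q i) (h0 : ∀ i, x i ^ q i = 0) :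
    Subalgebra.toSubmodule (Algebra.adjoin F (Set.range x)) ≤
      Submodule.span F (Set.range fun α : ∀ i, Fin (q i) => ∏ i, x i ^ (α i : ℕ)) := by
  classical
  set M := Submodule.span F (Set.range fun α : ∀ i, Fin (q i) => ∏ i, x i ^ (α i : ℕ)) with hM
  have hx : ∀ i : I, ∀ m : A, m ∈ M → x i * m ∈ M := by
    intro i m hm
    have h1 : M ≤ M.comap (LinearMap.mulLeft F (x i)) := by
      rw [hM, Submodule.span_le]
      rintro _ ⟨α, rfl⟩
      change (x i * ∏ i', x i' ^ (α i' : ℕ) : A) ∈ M
      have h2 : x i * ∏ i', x i' ^ (α i' : ℕ) =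
          x i ^ ((α i : ℕ) + 1) * ∏ i' ∈ Finset.univ.erase i, x i' ^ (α i' : ℕ) := by
        rw [← Finset.mul_prod_erase Finset.univ _ (Finset.mem_univ i), ← mul_assoc, pow_succ']
      rw [h2]
      by_cases h3 : (α i : ℕ) + 1 < q i
      · refine Submodule.subset_span ⟨Function.update α i ⟨(α i : ℕ) + 1, h3⟩, ?_⟩
        change ∏ i', x i' ^ ((Function.update α i ⟨(α i : ℕ) + 1, h3⟩ i' : Fin (q i')) : ℕ) = _
        rw [← Finset.mul_prod_erase Finset.univ _ (Finset.mem_univ i), Function.update_self]
        congr 1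
        refine Finset.prod_congr rfl fun i' hi' => ?_
        rw [Function.update_of_ne (Finset.ne_of_mem_erase hi')]
      · have h4 : (α i : ℕ) + 1 = q i := by
          have := (α i).2
          omega
        rw [h4, h0 i, zero_mul]
        exact Submodule.zero_mem _
    exact h1 hm
  have h1 : (1 : A) ∈ M := by
    refine Submodule.subset_span ⟨fun i => ⟨0, hq i⟩, ?_⟩
    simp
  have h2 : ∀ a ∈ Algebra.adjoin F (Set.range x), ∀ m : A, m ∈ M → a * m ∈ M := by
    intro a ha
    induction ha using Algebra.adjoin_induction with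
    | mem z hz =>
      obtain ⟨i, rfl⟩ := hz
      exact hx i
    | algebraMap r =>
      intro m hm
      rw [← Algebra.smul_def]
      exact M.smul_mem r hm
    | add y z _ _ hy hz =>
      intro m hm
      rw [add_mul]
      exact M.add_mem (hy m hm) (hz m hm)
    | mul y z _ _ hy hz =>
      intro m hm
      rw [mul_assoc]
      exact hy _ (hz m hm)
  intro a ha
  have h3 := h2 a ha 1 h1
  rwa [mul_one] at h3

/-- row NKY -/
theorem nky : NkyStmt := by
  intro ℓ _ F V I _ _ _ _ _ q x hV hq hspan hx0
  classical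
  have hchar : CharP (MonoidAlgebra F V) ℓ :=
    charP_of_injective_algebraMap (algebraMap F (MonoidAlgebra F V)).injective ℓ
  have hfin : Module.Finite F (MonoidAlgebra F V) := inferInstance
  have hnoeth : IsNoetherianRing (MonoidAlgebra F V) := isNoetherian_of_tower F inferInstance
  obtain ⟨n, hn⟩ := IsNoetherianRing.isNilpotent_nilradical (MonoidAlgebra F V)
  have hU2 : Au2 F V = Au F V * Au F V := by
    rw [Au, Submodule.span_mul_span]
    unfold Au2
    congr 1
    ext z
    constructor
    · rintro ⟨v, w, rfl⟩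
      exact Set.mul_mem_mul ⟨v, rfl⟩ ⟨w, rfl⟩
    · rintro ⟨_, ⟨v, rfl⟩, _, ⟨w, rfl⟩, rfl⟩
      exact ⟨v, w, rfl⟩
  have hnil : ∀ a ∈ Au F V, a ∈ nilradical (MonoidAlgebra F V) := by
    intro a ha
    have h1 : Au F V ≤ (nilradical (MonoidAlgebra F V)).restrictScalars F := by
      unfold Au
      rw [Submodule.span_le]
      rintro _ ⟨v, rfl⟩
      obtain ⟨k, hk⟩ := hV v
      change MonoidAlgebra.of F V v - 1 ∈ nilradical (MonoidAlgebra F V)
      rw [mem_nilradical]
      refine ⟨ℓ ^ k, ?_⟩
      rw [sub_pow_char_pow, ← map_pow, hk, map_one, one_pow, sub_self]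
    exact h1 ha
  have hpow : ∀ m : ℕ, Au F V ^ m ≤ (nilradical (MonoidAlgebra F V) ^ m).restrictScalars F := by
    intro m
    induction m with
    | zero =>
      intro a _
      rw [pow_zero, Ideal.one_eq_top]
      trivial
    | succ m ih =>
      rw [pow_succ, Submodule.mul_le]
      intro a ha b hb
      rw [Submodule.restrictScalars_mem, pow_succ]
      exact Ideal.mul_mem_mul (ih ha) (hnil b hb)
  have hbot : Au F V ^ n = ⊥ := by
    rw [eq_bot_iff]
    refine (hpow n).trans ?_
    rw [hn]
    intro a ha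
    exact ha
  have htop : (1 : Submodule F (MonoidAlgebra F V)) ⊔ Au F V = ⊤ := by
    rw [eq_top_iff]
    intro a _
    induction a using MonoidAlgebra.induction_on with
    | of v =>
      have h1 : MonoidAlgebra.of F V v = 1 + (MonoidAlgebra.of F V v - 1) := by ring
      rw [h1]
      exact Submodule.add_mem_sup (Submodule.one_le.mp le_rfl) (Submodule.subset_span ⟨v, rfl⟩)
    | add f g hf hg => exact Submodule.add_mem _ (hf trivial) (hg trivial)
    | smul r f hf => exact Submodule.smul_mem _ _ (hf trivial)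
  set S := Subalgebra.toSubmodule (Algebra.adjoin F (Set.range x)) with hS
  have hXS : ∀ m : ℕ, Submodule.span F (Set.range x) ^ m ≤ S := by
    intro m
    induction m with
    | zero =>
      rw [pow_zero, Submodule.one_le]
      exact (Algebra.adjoin F (Set.range x)).one_mem
    | succ m ih =>
      rw [pow_succ, Submodule.mul_le]
      intro a ha b hb
      have h1 : Submodule.span F (Set.range x) ≤ S := by
        rw [Submodule.span_le]
        exact Algebra.subset_adjoin
      exact (Algebra.adjoin F (Set.range x)).mul_mem (ih ha) (h1 hb)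
  have hstep : ∀ m : ℕ, (⊤ : Submodule F (MonoidAlgebra F V)) ≤ S ⊔ Au F V ^ (m + 1) := by
    intro m
    induction m with
    | zero =>
      rw [zero_add, pow_one, ← htop]
      refine sup_le_sup ?_ le_rfl
      rw [Submodule.one_le]
      exact (Algebra.adjoin F (Set.range x)).one_mem
    | succ m ih =>
      refine ih.trans (sup_le le_sup_left ?_)
      refine (pow_le_sup _ _ (hU2 ▸ hspan) (m + 1)).trans ?_
      exact sup_le_sup (hXS (m + 1)) le_rfl
  have h1 := hstep n
  rw [pow_succ, hbot, Submodule.bot_mul, sup_bot_eq] at h1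
  rw [eq_top_iff]
  exact h1.trans (adjoin_le q x hq hx0)

end Pool.Agent.PFC.B3.H81
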