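import Pool.Agent.PFC.StmtsB4b

/-!
Squad PFC, row QLQ (helper81): properties of products over signed lists.
-/

set_option autoImplicit false

open scoped BigOperators TensorProduct

namespace Pool.Agent.PFC.H81

/-- row QLQ -/
theorem qlq (qte : QteStmt) (qop : QopStmt) (qmx : QmxStmt) (qcp : QcpStmt) (qis : QisStmt) :
    QlqStmt := by
  intro ℓ _ F V ι ι' _ _ _ _ S S' f L hV
  obtain ⟨qop1, qop2, -⟩ := qop F V
  obtain ⟨qmx1, qmx2, qmx3⟩ := qmx F V
  obtain ⟨qcp1, qcp2, -, -, -, qcp6, -⟩ := qcp F V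
  obtain ⟨-, -, itr, -, -, -, -, iten, iop, -, -, ione, iopone, -, -, tten, top, tone⟩ := qis F V
  refine ⟨?_, ?_, ?_, ?_, ?_⟩
  · intro h
    induction L with
    | nil => exact qmx3
    | cons p L ih =>
      have h1 := h p (List.mem_cons_self ..)
      have h2 := ih fun p' hp' => h p' (List.mem_cons_of_mem _ hp')
      obtain ⟨Q, _ | _⟩ := p
      · exact qmx1 _ _ (qmx2 _ h1) h2
      · exact qmx1 _ _ h1 h2
  · intro h
    induction L with
    | nil => exact qcp6
    | cons p L ih =>
      have h1 := h p (List.mem_cons_self ..)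
      have h2 := ih fun p' hp' => h p' (List.mem_cons_of_mem _ hp')
      obtain ⟨Q, _ | _⟩ := p
      · exact qcp1 _ _ (qcp2 _ h1) h2
      · exact qcp1 _ _ h1 h2
  · intro Q h
    have hten : ∀ X Y X' Y' : IA F V, BQ X Y Q → BQ X' Y' Q → BQ (X.tens X') (Y.tens Y') Q := by
      rintro X Y X' Y' ⟨β, s, hb⟩ ⟨β', s', hb'⟩
      exact ⟨_, _, qte ℓ F V X Y X' Y' Q β s β' s' hV hb hb'⟩
    induction L with
    | nil => exact qop2 Q
    | cons p L ih =>
      have h1 := h p (List.mem_cons_self ..)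
      have h2 := ih fun p' hp' => h p' (List.mem_cons_of_mem _ hp')
      obtain ⟨K, _ | _⟩ := p
      · exact hten _ _ _ _ (qop1 _ _ Q h1) h2
      · exact hten _ _ _ _ h1 h2
  · intro σ h
    induction L with
    | nil => exact tone σ
    | cons p L ih =>
      have h1 := h p (List.mem_cons_self ..)
      have h2 := ih fun p' hp' => h p' (List.mem_cons_of_mem _ hp')
      obtain ⟨K, _ | _⟩ := p
      · exact tten σ _ _ _ _ (top σ _ _ h1) h2
      · exact tten σ _ _ _ _ h1 h2
  · intro h
    induction L with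
    | nil =>
      exact ⟨AlgEquiv.refl, fun v => rfl⟩
    | cons p L ih =>
      have h1 := h p (List.mem_cons_self ..)
      have h2 := ih fun p' hp' => h p' (List.mem_cons_of_mem _ hp')
      obtain ⟨K, _ | _⟩ := p
      · exact itr _ _ _ (iten _ _ _ _ (itr _ _ _ (iop _ _ h1) iopone) h2) (ione _)
      · exact itr _ _ _ (iten _ _ _ _ h1 h2) (ione _)

end Pool.Agent.PFC.H81
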