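import Pool.Agent.Helper81_PFC.QTA

/-!
Squad PFC, row QLW (helper81): the idempotent `π ⊗ 1`.
-/

set_option autoImplicit false

open scoped BigOperators TensorProduct

namespace Pool.Agent.PFC.H81

/-- a transversal of a proper subgroup of an `ℓ`-group has zero size in `F` -/
theorem tv_zero {ℓ : ℕ} [Fact ℓ.Prime] {F H : Type} [Field F] [CharP F ℓ] [Group H] [Finite H]
    (P' P : Subgroup H) (hP : IsPGroup ℓ P) (hlt : P' < P) (S : Finset H) (hS : IsTv P' P S) :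
    (S.card : F) = 0 := by
  have hdvd : ℓ ∣ S.card := by
    have hc := card_tv P' P hlt.le S hS
    obtain ⟨k, hk⟩ := (IsPGroup.iff_card).1 hP
    have hdiv : S.card ∣ ℓ ^ k := ⟨_, by rw [← hk]; exact hc.symm⟩
    obtain ⟨j, -, hj⟩ := (Nat.dvd_prime_pow (Fact.out : ℓ.Prime)).1 hdiv
    rcases Nat.eq_zero_or_pos j with h0 | h0
    · exfalso
      rw [h0, pow_zero] at hj
      rw [hj, one_mul] at hc
      exact hlt.ne (Subgroup.eq_of_le_of_card_ge hlt.le hc.ge)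
    · rw [hj]
      exact dvd_pow_self ℓ h0.ne'
  rw [CharP.cast_eq_zero_iff F ℓ]
  exact hdvd

/-- a linear map which is constant along the orbits of `P` kills the Brauer kernel -/
theorem kill_BK {ℓ : ℕ} [Fact ℓ.Prime] {F H M N : Type} [Field F] [CharP F ℓ] [Group H]
    [Finite H] [AddCommGroup M] [Module F M] [AddCommGroup N] [Module F N]
    (ρ : H →* (M →ₗ[F] M)) (P : Subgroup H) (hP : IsPGroup ℓ P) (f : M →ₗ[F] N)
    (hf : ∀ h ∈ P, ∀ m, f (ρ h m) = f m) {m : M} (hm : m ∈ BK ρ P) : f m = 0 := by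
  have h1 : BK ρ P ≤ LinearMap.ker f := by
    unfold BK
    rw [Submodule.span_le]
    rintro n ⟨P', S, x, hlt, hS, hx, rfl⟩
    rw [SetLike.mem_coe, LinearMap.mem_ker, map_sum,
      Finset.sum_congr rfl fun y hy => hf y (hS.1 y hy) x, Finset.sum_const,
      ← Nat.cast_smul_eq_nsmul F, tv_zero P' P hP hlt S hS, zero_smul]
  exact h1 hm

/-- large `ℓ`-powers in the group algebra of an `ℓ`-group are scalars -/
theorem pow_scalar {ℓ : ℕ} [Fact ℓ.Prime] {F V : Type} [Field F] [CharP F ℓ] [CommGroup V]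
    (hV : IsPGroup ℓ V) (y : MonoidAlgebra F V) :
    ∃ (k : ℕ) (r : F), y ^ ℓ ^ k = algebraMap F (MonoidAlgebra F V) r := by
  have hchar : CharP (MonoidAlgebra F V) ℓ :=
    charP_of_injective_algebraMap (algebraMap F (MonoidAlgebra F V)).injective ℓ
  have hmore : ∀ (z : MonoidAlgebra F V) (k j : ℕ) (r : F),
      z ^ ℓ ^ k = algebraMap F (MonoidAlgebra F V) r →
      z ^ ℓ ^ (k + j) = algebraMap F (MonoidAlgebra F V) (r ^ ℓ ^ j) := by
    intro z k j r h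
    rw [pow_add, pow_mul, h, map_pow]
  induction y using MonoidAlgebra.induction_on with
  | of v =>
    obtain ⟨k, hk⟩ := hV v
    exact ⟨k, 1, by rw [← map_pow, hk, map_one, map_one]⟩
  | add y z hy hz =>
    obtain ⟨k, r, h⟩ := hy
    obtain ⟨k', r', h'⟩ := hz
    refine ⟨k + k', r ^ ℓ ^ k' + r' ^ ℓ ^ k, ?_⟩
    rw [add_pow_char_pow, hmore y k k' r h, add_comm k k', hmore z k' k r' h', map_add]
  | smul c y hy =>
    obtain ⟨k, r, h⟩ := hy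
    refine ⟨k, c ^ ℓ ^ k * r, ?_⟩
    rw [Algebra.smul_def, mul_pow, h, map_mul, map_pow]

/-- the main part of QLW, for plain algebras -/
theorem qlw_aux {ℓ : ℕ} [Fact ℓ.Prime] {F V A : Type} [Field F] [CharP F ℓ] [CommGroup V]
    [Finite V] [Ring A] [Algebra F A] (ι : V →* A) (τ : V →* A ⊗[F] MonoidAlgebra F V)
    (hτ : ∀ v, τ v = ι v ⊗ₜ[F] MonoidAlgebra.of F V v)
    (c : A ⊗[F] MonoidAlgebra F V →ₗ[F] F) (π : A) (hV : IsPGroup ℓ V) (hc1 : c 1 = 1)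
    (hcm : ∀ x ∈ Fx (cj F τ) ⊤, ∀ y ∈ Fx (cj F τ) ⊤, c (x * y) = c x * c y)
    (hci : ∀ v a, c (cj F τ v a) = c a) (β : A →ₗ[F] F) (s : F →ₗ[F] A) (hβ1 : β 1 = 1)
    (q2 : ∀ m ∈ Fx (cj F ι) ⊤, β m = 0 ↔ m ∈ BK (cj F ι) ⊤)
    (q3 : ∀ m ∈ Fx (cj F ι) ⊤, m - s (β m) ∈ BK (cj F ι) ⊤)
    (hπ : π * π = π) (hπ0 : π ≠ 0) (hl : ∀ v, ι v * π = π) (hr : ∀ v, π * ι v = π)
    (hcor : ∀ a, ∃ t : F, π * a * π = t • π) :
    (π ⊗ₜ[F] (1 : MonoidAlgebra F V)) ∈ Fx (cj F τ) ⊤ ∧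
      (π ⊗ₜ[F] (1 : MonoidAlgebra F V)) * (π ⊗ₜ[F] (1 : MonoidAlgebra F V)) =
        π ⊗ₜ[F] (1 : MonoidAlgebra F V) ∧ c (π ⊗ₜ[F] (1 : MonoidAlgebra F V)) = 1 ∧
      ∀ x ∈ Fx (cj F τ) ⊤,
        c ((π ⊗ₜ[F] (1 : MonoidAlgebra F V)) * x * (π ⊗ₜ[F] (1 : MonoidAlgebra F V))) = 0 →
        IsNilpotent ((π ⊗ₜ[F] (1 : MonoidAlgebra F V)) * x * (π ⊗ₜ[F] (1 : MonoidAlgebra F V))) := by
  have hV' : IsPGroup ℓ (⊤ : Subgroup V) := hV.of_equiv Subgroup.topEquiv.symm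
  have hcj : ∀ (v : V) (a : A) (y : MonoidAlgebra F V),
      cj F τ v (a ⊗ₜ[F] y) = (cj F ι v a) ⊗ₜ[F] y := by
    intro v a y
    rw [cj_apply, cj_apply, hτ, hτ, Algebra.TensorProduct.tmul_mul_tmul,
      Algebra.TensorProduct.tmul_mul_tmul]
    congr 1
    rw [mul_comm y, ← mul_assoc, ← map_mul, mul_inv_cancel, map_one, one_mul]
  have hπfx : π ∈ Fx (cj F ι) ⊤ := by
    rw [mem_Fx_cj]
    intro v _
    rw [hl, hr]
  have h1fx : (1 : A) ∈ Fx (cj F ι) ⊤ := by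
    rw [mem_Fx_cj]
    intro v _
    rw [mul_one, one_mul]
  have htfx : ∀ a ∈ Fx (cj F ι) ⊤, ∀ y : MonoidAlgebra F V, a ⊗ₜ[F] y ∈ Fx (cj F τ) ⊤ := by
    intro a ha y v hv
    rw [hcj, ha v hv]
  -- the character of `A`
  let cW : A →ₗ[F] F := c ∘ₗ (TensorProduct.mk F A (MonoidAlgebra F V)).flip 1
  have hcW : ∀ a, cW a = c (a ⊗ₜ[F] (1 : MonoidAlgebra F V)) := fun a => rfl
  have hinv : ∀ v ∈ (⊤ : Subgroup V), ∀ a, cW (cj F ι v a) = cW a := by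
    intro v _ a
    rw [hcW, hcW, ← hcj, hci]
  have hs : ∀ r : F, s r = r • s 1 := by
    intro r
    rw [← map_smul, smul_eq_mul, mul_one]
  have hcs : cW (s 1) = 1 := by
    have h1 := kill_BK (cj F ι) ⊤ hV' cW hinv (q3 1 h1fx)
    rw [hβ1, map_sub, sub_eq_zero] at h1
    rw [← h1, hcW, ← Algebra.TensorProduct.one_def, hc1]
  have hcπ : cW π = β π := by
    have h1 := kill_BK (cj F ι) ⊤ hV' cW hinv (q3 π hπfx)
    rw [map_sub, sub_eq_zero, hs, map_smul, hcs, smul_eq_mul, mul_one] at h1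
    exact h1
  have hβ0 : β π ≠ 0 := by
    intro h0
    have h1 := (q2 π hπfx).1 h0
    let f : A →ₗ[F] A := LinearMap.mulLeft F π ∘ₗ LinearMap.mulRight F π
    have hf : ∀ a, f a = π * (a * π) := fun a => rfl
    have h2 := kill_BK (cj F ι) ⊤ hV' f (by
      intro v _ a
      rw [hf, hf, cj_apply]
      have h3 : π * (ι v * (a * ι v⁻¹) * π) = (π * ι v) * (a * (ι v⁻¹ * π)) := by
        simp only [mul_assoc]
      rw [h3, hr, hl]) h1
    rw [hf, hπ, hπ] at h2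
    exact hπ0 h2
  have hj1 : c (π ⊗ₜ[F] (1 : MonoidAlgebra F V)) = 1 := by
    have h1 := hcm _ (htfx π hπfx 1) _ (htfx π hπfx 1)
    rw [Algebra.TensorProduct.tmul_mul_tmul, hπ, one_mul] at h1
    have h2 : c (π ⊗ₜ[F] (1 : MonoidAlgebra F V)) ≠ 0 := by
      rw [← hcW, hcπ]
      exact hβ0
    exact (mul_eq_left₀ h2).1 h1.symm
  refine ⟨htfx π hπfx 1, ?_, hj1, ?_⟩
  · rw [Algebra.TensorProduct.tmul_mul_tmul, hπ, one_mul]
  · intro x _
    have hex : ∀ x : A ⊗[F] MonoidAlgebra F V, ∃ y : MonoidAlgebra F V,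
        (π ⊗ₜ[F] (1 : MonoidAlgebra F V)) * x * (π ⊗ₜ[F] (1 : MonoidAlgebra F V)) =
          π ⊗ₜ[F] y := by
      intro x
      induction x using TensorProduct.induction_on with
      | zero => exact ⟨0, by rw [mul_zero, zero_mul, TensorProduct.tmul_zero]⟩
      | tmul a y =>
        obtain ⟨t, ht⟩ := hcor a
        refine ⟨t • y, ?_⟩
        rw [Algebra.TensorProduct.tmul_mul_tmul, Algebra.TensorProduct.tmul_mul_tmul, ht, one_mul,
          mul_one, TensorProduct.smul_tmul]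
      | add x x' hx hx' =>
        obtain ⟨y, hy⟩ := hx
        obtain ⟨y', hy'⟩ := hx'
        exact ⟨y + y', by rw [mul_add, add_mul, hy, hy', TensorProduct.tmul_add]⟩
    obtain ⟨y, hy⟩ := hex x
    rw [hy]
    intro hy0
    have hpw : ∀ n : ℕ, (π ⊗ₜ[F] y) ^ (n + 1) = π ⊗ₜ[F] (y ^ (n + 1)) := by
      intro n
      rw [Algebra.TensorProduct.tmul_pow]
      congr 1
      exact IsIdempotentElem.pow_succ_eq n hπ
    have hcp : ∀ n : ℕ, c (π ⊗ₜ[F] (y ^ (n + 1))) = 0 := by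
      intro n
      have h1 : π ⊗ₜ[F] (y ^ (n + 1)) = (π ⊗ₜ[F] (y ^ n)) * (π ⊗ₜ[F] y) := by
        rw [Algebra.TensorProduct.tmul_mul_tmul, hπ, pow_succ]
      rw [h1, hcm _ (htfx π hπfx _) _ (htfx π hπfx _), hy0, mul_zero]
    obtain ⟨k, r, hk⟩ := pow_scalar hV y
    have hpos : 0 < ℓ ^ k := pow_pos (Fact.out : ℓ.Prime).pos k
    obtain ⟨n, hn⟩ : ∃ n, ℓ ^ k = n + 1 := ⟨ℓ ^ k - 1, by omega⟩
    have h1 := hcp n
    rw [← hn, hk, Algebra.algebraMap_eq_smul_one, TensorProduct.tmul_smul, map_smul, hj1,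
      smul_eq_mul, mul_one] at h1
    refine ⟨n + 1, ?_⟩
    rw [hpw, ← hn, hk, h1, map_zero, TensorProduct.tmul_zero]

/-- row QLW -/
theorem qlw (qke : QkeStmt) : QlwStmt := by
  intro ℓ _ F V _ _ _ _ W c π hV hBQ hc hπ hπ0 hl hr hcor
  obtain ⟨β, s, hβ⟩ := hBQ
  obtain ⟨q1, q2, q3⟩ := qke ℓ F V W.A (IA.one F V).A (cj F W.ι) (cj F (IA.one F V).ι) ⊤ β s hV
    hβ.toBrS
  have hβ1 : β 1 = 1 := by
    have h1 := hβ.cov 1
    rw [map_one W.ι, map_one (IA.one F V).ι] at h1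
    exact h1
  obtain ⟨h1, h2, h3, h4⟩ := qlw_aux W.ι (W.tens (IA.gr F V)).ι (fun v => rfl) c π hV hc.one hc.mul
    hc.inv β s hβ1 q2 q3 hπ hπ0 hl hr hcor
  exact ⟨h1, h2, h3, h4⟩

end Pool.Agent.PFC.H81
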