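import Pool.Agent.PFC.StmtsB4b

/-!
Squad PFC, row QTA (helper81): a unit of finite order which realises an automorphism.
-/

set_option autoImplicit false

open scoped BigOperators TensorProduct

namespace Pool.Agent.PFC.H81

/-- the conjugation action -/
theorem cj_apply {F V A : Type} [Field F] [Group V] [Ring A] [Algebra F A] (α : V →* A) (v : V)
    (a : A) : cj F α v a = α v * (a * α v⁻¹) := rfl

/-- fixed vectors of the conjugation action commute with `V` -/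
theorem mem_Fx_cj {F V A : Type} [Field F] [Group V] [Ring A] [Algebra F A] (α : V →* A)
    (Q : Subgroup V) (a : A) : a ∈ Fx (cj F α) Q ↔ ∀ v ∈ Q, α v * a = a * α v := by
  have h1 : ∀ v : V, α v⁻¹ * α v = 1 := fun v => by rw [← map_mul, inv_mul_cancel, map_one]
  have h2 : ∀ v : V, α v * α v⁻¹ = 1 := fun v => by rw [← map_mul, mul_inv_cancel, map_one]
  constructor
  · intro h v hv
    have h3 : α v * (a * α v⁻¹) = a := h v hv
    calc α v * a = α v * a * (α v⁻¹ * α v) := by rw [h1, mul_one]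
      _ = (α v * (a * α v⁻¹)) * α v := by simp only [mul_assoc]
      _ = a * α v := by rw [h3]
  · intro h v hv
    change α v * (a * α v⁻¹) = a
    rw [← mul_assoc, h v hv, mul_assoc, h2, mul_one]

/-- row QTA -/
theorem qta : QtaStmt := by
  intro ℓ hℓ F V _ _ _ _ X σ m hm hdvd hσ hnt hloc hrz
  obtain ⟨y, hy⟩ := hrz
  -- the powers of y
  have hpow : ∀ (k : ℕ) (v : V), ((y ^ k : X.Aˣ) : X.A) * X.ι v = X.ι ((σ ^ k) v) * (y ^ k : X.Aˣ) := by
    intro k
    induction k with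
    | zero =>
      intro v
      simp
    | succ k ih =>
      intro v
      rw [pow_succ, Units.val_mul, mul_assoc, hy v, ← mul_assoc, ih (σ v), mul_assoc]
      rfl
  have hw : ∀ v : V, ((y ^ m : X.Aˣ) : X.A) * X.ι v = X.ι v * (y ^ m : X.Aˣ) := by
    intro v
    have h1 := hpow m v
    rw [hσ] at h1
    exact h1
  have hfx : ((y ^ m : X.Aˣ) : X.A) ∈ Fx (cj F X.ι) ⊤ := by
    rw [mem_Fx_cj]
    intro v _
    exact (hw v).symm
  obtain ⟨t, ht⟩ := hloc _ hfx
  have ht0 : t ≠ 0 := by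
    intro h0
    rw [h0, map_zero, sub_zero] at ht
    exact (Units.isUnit (y ^ m)).not_isNilpotent ht
  -- the scalars as units
  let sc : Fˣ →* X.Aˣ := Units.map (algebraMap F X.A : F →* X.A)
  have hsc : ∀ (r : Fˣ) (z : X.Aˣ), sc r * z = z * sc r := by
    intro r z
    apply Units.ext
    exact Algebra.commutes (r : F) (z : X.A)
  let tu : Fˣ := Units.mk0 t ht0
  obtain ⟨r, hr⟩ := IsAlgClosed.exists_pow_nat_eq t hm
  have hr0 : r ≠ 0 := by
    intro h0
    rw [h0, zero_pow hm.ne'] at hr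
    exact ht0 hr.symm
  let ru : Fˣ := Units.mk0 r hr0
  have hru : ru ^ m = tu := Units.ext (by
    change r ^ m = t
    exact hr)
  -- the unipotent unit
  let u : X.Aˣ := sc tu⁻¹ * y ^ m
  obtain ⟨a, ha⟩ : ∃ a : ℕ, u ^ ℓ ^ a = 1 := by
    obtain ⟨k, hk⟩ := ht
    have hchar : CharP X.A ℓ := charP_of_injective_algebraMap (algebraMap F X.A).injective ℓ
    refine ⟨k, Units.ext ?_⟩
    have h1 : ((y ^ m : X.Aˣ) : X.A) ^ ℓ ^ k = algebraMap F X.A t ^ ℓ ^ k := by
      have h2 : Commute ((y ^ m : X.Aˣ) : X.A) (algebraMap F X.A t) := Algebra.commute_algebraMap_right _ _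
      have h3 := sub_pow_char_pow_of_commute (p := ℓ) (n := k) h2
      have h4 : (((y ^ m : X.Aˣ) : X.A) - algebraMap F X.A t) ^ ℓ ^ k = 0 :=
        pow_eq_zero_of_le (Nat.lt_pow_self hℓ.out.one_lt).le hk
      rw [h4] at h3
      exact (sub_eq_zero.1 h3.symm)
    have h5 : (u : X.A) = algebraMap F X.A t⁻¹ * ((y ^ m : X.Aˣ) : X.A) := rfl
    have h6 : Commute (algebraMap F X.A t⁻¹) ((y ^ m : X.Aˣ) : X.A) := Algebra.commute_algebraMap_left _ _
    rw [Units.val_pow_eq_pow_val, h5, h6.mul_pow, h1, ← map_pow, ← map_pow, ← map_mul, inv_pow,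
      inv_mul_cancel₀ (pow_ne_zero _ ht0), map_one]
    rfl
  have hcop : Nat.Coprime m (ℓ ^ a) :=
    Nat.Coprime.pow_right _ ((Nat.Prime.coprime_iff_not_dvd hℓ.out).2 hdvd).symm
  -- s * m + 1 is divisible by ℓ ^ a
  obtain ⟨s, q, hs⟩ : ∃ s q : ℕ, s * m + 1 = ℓ ^ a * q := by
    have hne : NeZero (ℓ ^ a) := ⟨pow_ne_zero _ hℓ.out.ne_zero⟩
    let w : (ZMod (ℓ ^ a))ˣ := ZMod.unitOfCoprime m hcop
    refine ⟨(-((w⁻¹ : (ZMod (ℓ ^ a))ˣ) : ZMod (ℓ ^ a))).val, ?_⟩
    have h1 : (ℓ ^ a : ℕ) ∣ (-((w⁻¹ : (ZMod (ℓ ^ a))ˣ) : ZMod (ℓ ^ a))).val * m + 1 := by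
      rw [← ZMod.natCast_eq_zero_iff, Nat.cast_add, Nat.cast_mul, ZMod.natCast_zmod_val,
        ← ZMod.coe_unitOfCoprime m hcop, Nat.cast_one, neg_mul, Units.inv_mul, neg_add_cancel]
    exact h1
  have huy : u * y = y * u := by
    change sc tu⁻¹ * y ^ m * y = y * (sc tu⁻¹ * y ^ m)
    rw [mul_assoc, ← pow_succ, ← mul_assoc, ← hsc, mul_assoc, ← pow_succ']
  refine ⟨sc ru⁻¹ * u ^ s * y, ?_, ?_⟩
  · intro v
    have hu' : ∀ v : V, (u : X.A) * X.ι v = X.ι v * u := by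
      intro v
      change algebraMap F X.A t⁻¹ * ((y ^ m : X.Aˣ) : X.A) * X.ι v = X.ι v * (algebraMap F X.A t⁻¹ * ((y ^ m : X.Aˣ) : X.A))
      rw [mul_assoc, hw, ← mul_assoc, ← mul_assoc, Algebra.commutes]
    have hus : ∀ v : V, ((u ^ s : X.Aˣ) : X.A) * X.ι v = X.ι v * (u ^ s : X.Aˣ) := by
      intro v
      rw [Units.val_pow_eq_pow_val]
      exact Commute.pow_left (hu' v) s
    rw [Units.val_mul, mul_assoc, hy v, ← mul_assoc]
    have h7 : ((sc ru⁻¹ * u ^ s : X.Aˣ) : X.A) * X.ι (σ v) = X.ι (σ v) * (sc ru⁻¹ * u ^ s : X.Aˣ) := by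
      rw [Units.val_mul, mul_assoc, hus, ← mul_assoc, ← mul_assoc]
      congr 1
      exact Algebra.commutes _ _
    rw [h7, mul_assoc]
  · have h8 : Commute (sc ru⁻¹) (u ^ s * y) := hsc _ _
    have h9 : Commute (u ^ s) y := Commute.pow_left huy s
    rw [mul_assoc, h8.mul_pow, h9.mul_pow, ← pow_mul, ← map_pow, inv_pow, hru]
    have h10 : y ^ m = sc tu * u := by
      change y ^ m = sc tu * (sc tu⁻¹ * y ^ m)
      rw [← mul_assoc, ← map_mul, mul_inv_cancel, map_one, one_mul]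
    rw [h10, ← mul_assoc (u ^ (s * m)), ← hsc, mul_assoc, ← pow_succ, hs, pow_mul, ha, one_pow,
      mul_one, ← map_mul, inv_mul_cancel, map_one]

end Pool.Agent.PFC.H81
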