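import Pool.Agent.Helper81_PFC.QLW

/-!
Squad PFC, row QTR (helper81): transitivity of Brauer quotients.
-/

set_option autoImplicit false

open scoped BigOperators TensorProduct

namespace Pool.Agent.PFC.H81

open MulAction

/-- fixed vectors for the join of two subgroups -/
theorem Fx_sup {F H M : Type} [Field F] [Group H] [AddCommGroup M] [Module F M]
    (ρ : H →* (M →ₗ[F] M)) (Q R : Subgroup H) (m : M) :
    m ∈ Fx ρ (Q ⊔ R) ↔ m ∈ Fx ρ Q ∧ m ∈ Fx ρ R := by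
  constructor
  · intro h
    exact ⟨fun q hq => h q (Subgroup.mem_sup_left hq), fun q hq => h q (Subgroup.mem_sup_right hq)⟩
  · rintro ⟨h1, h2⟩ q hq
    have hle : Q ⊔ R ≤
        { carrier := {h | ρ h m = m}
          one_mem' := by
            change ρ 1 m = m
            rw [map_one]
            rfl
          mul_mem' := by
            intro a b ha hb
            change ρ (a * b) m = m
            rw [map_mul]
            change ρ a (ρ b m) = m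
            rw [hb, ha]
          inv_mem' := by
            intro a ha
            change ρ a⁻¹ m = m
            have h3 : ρ a⁻¹ (ρ a m) = m := by
              rw [← Module.End.mul_apply, ← map_mul, inv_mul_cancel, map_one]
              rfl
            rw [ha] at h3
            exact h3 : Subgroup H } := by
      refine sup_le ?_ ?_
      · intro a ha
        exact h1 a ha
      · intro a ha
        exact h2 a ha
    exact hle hq

/-- points fixed by the join of two subgroups -/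
theorem fix_sup {H Ω : Type} [Group H] [MulAction H Ω] (Q R : Subgroup H) (ω : Ω) :
    (∀ h ∈ Q ⊔ R, h • ω = ω) ↔ (∀ h ∈ Q, h • ω = ω) ∧ ∀ h ∈ R, h • ω = ω := by
  constructor
  · intro h
    exact ⟨fun q hq => h q (Subgroup.mem_sup_left hq), fun q hq => h q (Subgroup.mem_sup_right hq)⟩
  · rintro ⟨h1, h2⟩ q hq
    have hle : Q ⊔ R ≤ stabilizer H ω := by
      refine sup_le ?_ ?_
      · intro a ha
        exact h1 a ha
      · intro a ha
        exact h2 a ha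
    exact hle hq

/-- the frame of a split Brauer quotient on the fixed points -/
theorem frame_quot {ℓ : ℕ} [Fact ℓ.Prime] {F V M N : Type} [Field F] [CharP F ℓ] [CommGroup V]
    [Finite V] [AddCommGroup M] [Module F M] [AddCommGroup N] [Module F N]
    (ρ : V →* (M →ₗ[F] M)) (ρ' : V →* (N →ₗ[F] N)) (Q : Subgroup V) (β : M →ₗ[F] N)
    (s : N →ₗ[F] M) (h : BrS ρ ρ' Q β s) (hs : ∀ n, s n ∈ Fx ρ Q)
    (hk : ∀ m ∈ BK ρ Q, β m = 0) {Ω : Type} [Fintype Ω] [MulAction V Ω]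
    {b : Ω → M} {c : Ω → (M →ₗ[F] F)} (hfr : IsFr ρ b c) :
    IsFr ρ' (fun ω => by
      classical exact if ω ∈ fp Q Ω then β (b ω) else 0) (fun ω => by
      classical exact if ω ∈ fp Q Ω then c ω ∘ₗ s else 0) := by
  classical
  have hst : ∀ (v : V) (ω : Ω), v • ω ∈ fp Q Ω ↔ ω ∈ fp Q Ω := by
    intro v ω
    rw [mem_fp, mem_fp]
    constructor
    · intro h1 q hq
      have h2 := h1 q hq
      rw [smul_smul, mul_comm, mul_smul] at h2
      exact smul_left_cancel v h2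
    · intro h1 q hq
      rw [smul_smul, mul_comm, mul_smul, h1 q hq]
  refine ⟨?_, ?_, ?_⟩
  · intro v ω
    by_cases hω : ω ∈ fp Q Ω
    · simp only [hst, hω, if_true]
      rw [hfr.1, h.eb]
    · simp only [hst, hω, if_false]
      rw [map_zero]
  · intro v ω n
    by_cases hω : ω ∈ fp Q Ω
    · simp only [hst, hω, if_true]
      rw [LinearMap.comp_apply, LinearMap.comp_apply, h.es, hfr.2.1]
    · simp only [hst, hω, if_false]
      rfl
  · intro n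
    have h1 := frame_sub hfr Q (hs n)
    have h2 := hk _ h1
    rw [map_sub, h.bs, sub_eq_zero] at h2
    rw [map_sum] at h2
    have h3 : ∑ ω, (if ω ∈ fp Q Ω then c ω ∘ₗ s else 0) n • (if ω ∈ fp Q Ω then β (b ω) else 0) =
        ∑ ω ∈ fp Q Ω, β (c ω (s n) • b ω) := by
      rw [← Finset.sum_filter_add_sum_filter_not Finset.univ (fun ω => ω ∈ fp Q Ω)]
      have h4 : Finset.univ.filter (fun ω => ω ∈ fp Q Ω) = fp Q Ω := by
        ext ω
        simp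
      rw [h4]
      have h5 : ∑ ω ∈ Finset.univ.filter (fun ω => ω ∉ fp Q Ω),
          (if ω ∈ fp Q Ω then c ω ∘ₗ s else 0) n • (if ω ∈ fp Q Ω then β (b ω) else 0) = 0 := by
        refine Finset.sum_eq_zero fun ω hω => ?_
        rw [if_neg (Finset.mem_filter.1 hω).2, if_neg (Finset.mem_filter.1 hω).2, smul_zero]
      rw [h5, add_zero]
      refine Finset.sum_congr rfl fun ω hω => ?_
      rw [if_pos hω, if_pos hω, LinearMap.comp_apply, map_smul]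
    exact h3.trans h2.symm

/-- the two Brauer kernels -/
theorem BK_quot {ℓ : ℕ} [Fact ℓ.Prime] {F V M N : Type} [Field F] [CharP F ℓ] [CommGroup V]
    [Finite V] [AddCommGroup M] [Module F M] [AddCommGroup N] [Module F N]
    (ρ : V →* (M →ₗ[F] M)) (ρ' : V →* (N →ₗ[F] N)) (Q R : Subgroup V) (β : M →ₗ[F] N)
    (s : N →ₗ[F] M) (hV : IsPGroup ℓ V) (h : BrS ρ ρ' Q β s) (hs : ∀ n, s n ∈ Fx ρ Q)
    (hk : ∀ m ∈ BK ρ Q, β m = 0) (hk2 : ∀ m ∈ Fx ρ Q, m - s (β m) ∈ BK ρ Q)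
    (hPS : PS (fun _ => True) ρ) (m : M) (hm : m ∈ Fx ρ (Q ⊔ R)) :
    β m ∈ BK ρ' R ↔ m ∈ BK ρ (Q ⊔ R) := by
  classical
  obtain ⟨Ω, _, _, b, c, hfr, -⟩ := hPS
  have hfr' := frame_quot ρ ρ' Q β s h hs hk hfr
  obtain ⟨hmQ, hmR⟩ := (Fx_sup ρ Q R m).1 hm
  have hβm : β m ∈ Fx ρ' R := by
    intro v hv
    rw [← h.eb, hmR v hv]
  rw [frame_iff hfr' R (hV.to_subgroup R) hβm, frame_iff hfr (Q ⊔ R) (hV.to_subgroup _) hm]
  have hcc : ∀ ω ∈ fp Q Ω, c ω (s (β m)) = c ω m := by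
    intro ω hω
    have h1 := frame_BK hfr Q (hV.to_subgroup Q) (hk2 m hmQ) ω ((mem_fp Q Ω ω).1 hω)
    rw [map_sub, sub_eq_zero] at h1
    exact h1.symm
  constructor
  · intro h1 ω hω
    obtain ⟨h2, h3⟩ := (fix_sup Q R ω).1 hω
    have h4 := h1 ω h3
    have h5 : ω ∈ fp Q Ω := (mem_fp Q Ω ω).2 h2
    simp only [h5, if_true] at h4
    rw [LinearMap.comp_apply, hcc ω h5] at h4
    exact h4
  · intro h1 ω hω
    by_cases h5 : ω ∈ fp Q Ω
    · simp only [h5, if_true]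
      rw [LinearMap.comp_apply, hcc ω h5]
      exact h1 ω ((fix_sup Q R ω).2 ⟨(mem_fp Q Ω ω).1 h5, hω⟩)
    · simp only [h5, if_false]
      rfl

/-- row QTR -/
theorem qtr (qal : QalStmt) (qke : QkeStmt) (qcp : QcpStmt) (qis : QisStmt) : QtrStmt := by
  intro ℓ _ F V _ _ _ _ X Y Z Q R hV hX hXY hXZ
  have hY : CP Y := (qcp F V).2.2.1 X Y Q hXY hX
  obtain ⟨Z', hZ'⟩ := qal ℓ F V Y hV hY R
  have hZ'' := hZ'
  obtain ⟨β, s, hb⟩ := hXY
  obtain ⟨β₂, s₂, hb₂⟩ := hXZ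
  obtain ⟨β₃, s₃, hb₃⟩ := hZ'
  obtain ⟨k1, k2, k3⟩ := qke ℓ F V _ _ _ _ Q β s hV hb.toBrS
  obtain ⟨l1, l2, l3⟩ := qke ℓ F V _ _ _ _ (Q ⊔ R) β₂ s₂ hV hb₂.toBrS
  obtain ⟨m1, m2, m3⟩ := qke ℓ F V _ _ _ _ R β₃ s₃ hV hb₃.toBrS
  have hβFx : ∀ x ∈ Fx (cj F X.ι) (Q ⊔ R), β x ∈ Fx (cj F Y.ι) R := by
    intro x hx v hv
    rw [← hb.eb, hx v (Subgroup.mem_sup_right hv)]
  have hsFx : ∀ y ∈ Fx (cj F Y.ι) R, s y ∈ Fx (cj F X.ι) (Q ⊔ R) := by
    intro y hy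
    rw [Fx_sup]
    refine ⟨k1 y, fun v hv => ?_⟩
    rw [← hb.es, hy v hv]
  have hker : ∀ x ∈ Fx (cj F X.ι) (Q ⊔ R), β₃ (β x) = 0 ↔ β₂ x = 0 := by
    intro x hx
    rw [m2 _ (hβFx x hx), l2 x hx]
    exact BK_quot (cj F X.ι) (cj F Y.ι) Q R β s hV hb.toBrS k1 (fun m hm =>
      (k2 m (BK_le_Fx _ _ hm)).2 hm) k3 hX x hx
  have hQ : ∀ x ∈ Fx (cj F X.ι) (Q ⊔ R), x ∈ Fx (cj F X.ι) Q := fun x hx =>
    ((Fx_sup _ Q R x).1 hx).1
  -- the map
  let e : Z'.A →ₗ[F] Z.A := β₂ ∘ₗ s ∘ₗ s₃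
  let e' : Z.A →ₗ[F] Z'.A := β₃ ∘ₗ β ∘ₗ s₂
  have hsur : ∀ z : Z'.A, β₃ (β (s (s₃ z))) = z := by
    intro z
    rw [hb.bs, hb₃.bs]
  have hzFx : ∀ z : Z'.A, s (s₃ z) ∈ Fx (cj F X.ι) (Q ⊔ R) := fun z => hsFx _ (m1 z)
  have he : ∀ x ∈ Fx (cj F X.ι) (Q ⊔ R), e (β₃ (β x)) = β₂ x := by
    intro x hx
    have h1 : s (s₃ (β₃ (β x))) - x ∈ Fx (cj F X.ι) (Q ⊔ R) := Submodule.sub_mem _ (hzFx _) hx
    have h2 : β₃ (β (s (s₃ (β₃ (β x))) - x)) = 0 := by
      rw [map_sub, map_sub, hsur, sub_self]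
    have h3 := (hker _ h1).1 h2
    rw [map_sub, sub_eq_zero] at h3
    exact h3
  have he' : ∀ x ∈ Fx (cj F X.ι) (Q ⊔ R), e' (β₂ x) = β₃ (β x) := by
    intro x hx
    have h1 : s₂ (β₂ x) - x ∈ Fx (cj F X.ι) (Q ⊔ R) := Submodule.sub_mem _ (l1 _) hx
    have h2 : β₂ (s₂ (β₂ x) - x) = 0 := by
      rw [map_sub, hb₂.bs, sub_self]
    have h3 := (hker _ h1).2 h2
    rw [map_sub, map_sub, sub_eq_zero] at h3
    exact h3
  have hmulFx : ∀ x ∈ Fx (cj F X.ι) (Q ⊔ R), ∀ y ∈ Fx (cj F X.ι) (Q ⊔ R),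
      x * y ∈ Fx (cj F X.ι) (Q ⊔ R) := by
    intro x hx y hy
    rw [mem_Fx_cj] at hx hy ⊢
    intro v hv
    rw [← mul_assoc, hx v hv, mul_assoc, hy v hv, mul_assoc]
  have hιFx : ∀ (v : V) (P : Subgroup V), X.ι v ∈ Fx (cj F X.ι) P := by
    intro v P
    rw [mem_Fx_cj]
    intro u _
    rw [← map_mul, ← map_mul, mul_comm]
  have hmul : ∀ z z' : Z'.A, e (z * z') = e z * e z' := by
    intro z z'
    have h1 : z * z' = β₃ (β (s (s₃ z) * s (s₃ z'))) := by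
      rw [hb.mul _ (hQ _ (hzFx z)) _ (hQ _ (hzFx z')),
        hb₃.mul _ (hβFx _ (hzFx z)) _ (hβFx _ (hzFx z')), hsur, hsur]
    rw [h1, he _ (hmulFx _ (hzFx z) _ (hzFx z')), hb₂.mul _ (hzFx z) _ (hzFx z')]
    rfl
  have hι : ∀ v, e (Z'.ι v) = Z.ι v := by
    intro v
    have h1 : Z'.ι v = β₃ (β (X.ι v)) := by rw [hb.cov, hb₃.cov]
    rw [h1, he _ (hιFx v _), hb₂.cov]
  have hone : e 1 = 1 := by
    have h1 := hι 1
    rw [map_one Z'.ι, map_one Z.ι] at h1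
    exact h1
  have hinv1 : ∀ z, e (e' z) = z := by
    intro z
    change e (β₃ (β (s₂ z))) = z
    rw [he _ (l1 z), hb₂.bs]
  have hinv2 : ∀ z, e' (e z) = z := by
    intro z
    change e' (β₂ (s (s₃ z))) = z
    rw [he' _ (hzFx z), hsur]
  have hIso : Iso Z' Z := by
    refine ⟨AlgEquiv.ofLinearEquiv (LinearEquiv.ofLinearMap e e' ?_ ?_) hone hmul, hι⟩
    · apply LinearMap.ext
      intro z
      exact hinv1 z
    · apply LinearMap.ext
      intro z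
      exact hinv2 z
  obtain ⟨irefl, -, -, ibq, -⟩ := qis F V
  exact ibq Y Y Z' Z R (irefl Y) hIso hZ''

end Pool.Agent.PFC.H81
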