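import Pool.Agent.PFC.StmtsB2

/-!
Squad PFC, row GEN (helper81): the lower bound from the deformation data and the family.
-/

set_option autoImplicit false

namespace Pool.Agent.PFC.B2.H81

open Pool.Agent.PFC.B1

/-- row GEN -/
theorem gen (qhr : QhrStmt) (qhk : QhkStmt) (fml : FmlStmt) (arc : ArcStmt) (cou : CouStmt) :
    GenStmt := by
  intro F Γ Γ0 A A' I I0 J' K H E _ _ _ _ _ _ _ _ _ _ _ _ _ _ _ _ _ _ _ _ _ _ c c0 f sp0 sep D nk
    ed hE hcard
  obtain ⟨l, n, S, hS1, hS2, hS3⟩ := fml (PowerSeries F) Γ (FractionRing (PowerSeries F))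
  obtain ⟨p, T, hT1, hT2⟩ := arc F Γ A' H I J' (FractionRing (PowerSeries F)) c D.d D.sp nk l n S
    (fun T _ _ _ τ => qhk F Γ Γ0 A A' I I0 J' K (FractionRing (PowerSeries F)) T c c0 f sp0 sep D τ)
    hS1 hS3
  exact cou F Γ A' A E I J' (FractionRing (PowerSeries F)) c D.d D.sp D.fb ed l n S p T hE hcard
    (fun T _ _ _ _ τ => qhr F Γ Γ0 A A' I I0 J' K T c c0 f sp0 sep D τ) hS2 hT1 hT2

end Pool.Agent.PFC.B2.H81
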