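import Pool.Agent.PFC.StmtsB2

/-!
Squad PFC, row HAD (helper81): homomorphisms to a Higman projective representation are exact.
-/

set_option autoImplicit false

namespace Pool.Agent.PFC.B2.H81

open Pool.Agent.PFC.B1

/-- row HAD -/
theorem had (pin : PinStmt) : HadStmt := by
  intro R A I k M N _ _ _ _ _ _ _ _ _ _ _ _ c ρ ν W h hν
  -- restriction
  let res : Hm ρ ν →ₗ[k] Hm (subRp ρ W h) ν :=
    { toFun := fun f => ⟨f.1 ∘ₗ W.subtype, fun a w => f.2 a w.1⟩
      map_add' := fun f g => rfl
      map_smul' := fun r f => rfl }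
  have hres : Function.Surjective res := by
    rintro ⟨f, hf⟩
    obtain ⟨r, hr⟩ := W.subtype.exists_leftInverse_of_injective W.ker_subtype
    obtain ⟨g, hg1, hg2⟩ := (pin.1 R A I k N W M c ν (subRp ρ W h) ρ hν).2 W.subtype r f
      (fun a w => rfl) hr hf
    refine ⟨⟨g, hg1⟩, Subtype.ext hg2⟩
  -- homomorphisms from the quotient
  let q : Hm (quRp ρ W h) ν →ₗ[k] Hm ρ ν :=
    { toFun := fun g => ⟨g.1 ∘ₗ W.mkQ, fun a m => g.2 a (W.mkQ m)⟩
      map_add' := fun f g => rfl
      map_smul' := fun r f => rfl }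
  have hq : Function.Injective q := by
    intro g g' hgg
    apply Subtype.ext
    apply LinearMap.ext
    intro y
    obtain ⟨x, rfl⟩ := W.mkQ_surjective y
    exact LinearMap.congr_fun (congrArg Subtype.val hgg) x
  have hker : LinearMap.ker res = LinearMap.range q := by
    apply le_antisymm
    · rintro ⟨f, hf⟩ hf0
      have hf1 : ∀ w ∈ W, f w = 0 := by
        intro w hw
        exact LinearMap.congr_fun (congrArg Subtype.val (LinearMap.mem_ker.1 hf0)) ⟨w, hw⟩
      refine ⟨⟨W.liftQ f (fun w hw => hf1 w hw), ?_⟩, ?_⟩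
      · intro a y
        obtain ⟨x, rfl⟩ := W.mkQ_surjective y
        exact hf a x
      · apply Subtype.ext
        apply LinearMap.ext
        intro x
        rfl
    · rintro _ ⟨g, rfl⟩
      apply LinearMap.mem_ker.2
      apply Subtype.ext
      apply LinearMap.ext
      intro w
      change g.1 (W.mkQ w.1) = 0
      have h1 : W.mkQ w.1 = 0 := by
        rw [Submodule.mkQ_apply, Submodule.Quotient.mk_eq_zero]
        exact w.2
      rw [h1, map_zero]
  have h1 := LinearMap.finrank_range_add_finrank_ker res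
  rw [LinearMap.range_eq_top.2 hres, finrank_top, hker, LinearMap.finrank_range_of_inj hq] at h1
  exact h1.symm

end Pool.Agent.PFC.B2.H81
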