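import Pool.Agent.PFC.StmtsB3

/-!
Squad PFC, row SSR (helper81): the representations of the order over the fraction field in which `x` acts as zero
are semisimple.
-/

set_option autoImplicit false

open scoped BigOperators

namespace Pool.Agent.PFC.B3.H81

open MvPolynomial

/-- scalars pass through a representation -/
theorem rp_smul {R A k M : Type} [CommRing R] [Ring A] [Algebra R A] [CommRing k] [Algebra R k]
    [AddCommGroup M] [Module k M] (τ : B1.Rp R A k M) (r : R) (z : A) :
    τ.ρ (r • z) = algebraMap R k r • τ.ρ z := by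
  apply LinearMap.ext
  intro u
  rw [Algebra.smul_def, map_mul, Module.End.mul_apply, τ.sc, LinearMap.smul_apply]

/-- row SSR; `CycStmt` is not needed -/
theorem ssr (sst : SstStmt) (avg : AvgStmt) : SsrStmt := by
  intro ℓ _ F I E Λ _ _ _ _ _ _ _ _ a p i0 η P ha hE L T _ _ _ _ _ _ τ hx U hU
  have hinj : Function.Injective (algebraMap (PowerSeries F) L) := IsFractionRing.injective _ _
  have hcF : CharP (PowerSeries F) ℓ :=
    charP_of_injective_ringHom (f := (PowerSeries.C : F →+* PowerSeries F))
      PowerSeries.C_injective ℓ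
  have hcL : CharP L ℓ := charP_of_injective_algebraMap hinj ℓ
  have ht : algebraMap (PowerSeries F) L PowerSeries.X ≠ 0 := by
    rw [Ne, map_eq_zero_iff _ hinj]
    exact PowerSeries.X_ne_zero
  -- the operators
  set y : I → Module.End L T := fun i => τ.ρ (P.j (X i)) with hy
  have hcomm : ∀ i i', y i * y i' = y i' * y i := by
    intro i i'
    rw [hy]
    change τ.ρ (P.j (X i)) * τ.ρ (P.j (X i')) = τ.ρ (P.j (X i')) * τ.ρ (P.j (X i))
    rw [← map_mul, ← map_mul, ← map_mul, ← map_mul, mul_comm]
  have hpow : ∀ i, i ≠ i0 → y i ^ ℓ ^ a i = algebraMap (PowerSeries F) L PowerSeries.X • y (p i) := by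
    intro i hi
    have h1 := P.rel i
    have h2 : cc (PowerSeries F) I PowerSeries.X i0 i = PowerSeries.X := if_neg hi
    rw [h2] at h1
    change τ.ρ (P.j (X i)) ^ ℓ ^ a i = _
    rw [← map_pow, h1, rp_smul]
  have hell : ∀ i, ∃ z ∈ Algebra.adjoin L (Set.range y), ∃ s : L, y i = s • z ^ ℓ := by
    intro i
    by_cases hi : p.symm i = i0
    · refine ⟨0, Subalgebra.zero_mem _, 0, ?_⟩
      have h1 : i = p i0 := by rw [← hi, Equiv.apply_symm_apply]
      rw [zero_smul, h1]
      apply LinearMap.ext
      intro u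
      exact hx u
    · have h1 := hpow (p.symm i) hi
      rw [Equiv.apply_symm_apply] at h1
      refine ⟨y (p.symm i) ^ ℓ ^ (a (p.symm i) - 1),
        Subalgebra.pow_mem _ (Algebra.subset_adjoin (Set.mem_range_self _)) _,
        (algebraMap (PowerSeries F) L PowerSeries.X)⁻¹, ?_⟩
      rw [← pow_mul, ← pow_succ, Nat.sub_add_cancel (ha _), h1, smul_smul, inv_mul_cancel₀ ht,
        one_smul]
  have hUy : ∀ i, ∀ u ∈ U, y i u ∈ U := fun i u hu => hU _ u hu
  obtain ⟨U', hc, hU'⟩ := sst ℓ L I T y hcomm hell U hUy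
  -- the averaging
  have hEL : (Fintype.card E : L) ≠ 0 := by
    intro h
    apply hE
    rw [CharP.cast_eq_zero_iff L ℓ] at h
    rw [CharP.cast_eq_zero_iff F ℓ]
    exact h
  have hη : ∀ i e, (((τ.ρ : Λ →* Module.End L T).comp P.ε) e) * y i =
      (((Units.map (algebraMap (PowerSeries F) L : PowerSeries F →* L)).comp (η i) e : Lˣ) : L) •
        (y i * (((τ.ρ : Λ →* Module.End L T).comp P.ε) e)) := by
    intro i e
    change τ.ρ (P.ε e) * τ.ρ (P.j (X i)) = algebraMap (PowerSeries F) L (η i e : PowerSeries F) •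
      (τ.ρ (P.j (X i)) * τ.ρ (P.ε e))
    rw [← map_mul, P.cm, rp_smul, map_mul]
  obtain ⟨W, hW, hWy, hWe⟩ := avg L I E T y ((τ.ρ : Λ →* Module.End L T).comp P.ε)
    (fun i => (Units.map (algebraMap (PowerSeries F) L : PowerSeries F →* L)).comp (η i)) hEL hη
    U U' hc hUy hU' (fun e u hu => hU _ u hu)
  refine ⟨W, hW, ?_⟩
  -- the order is spanned by the `j f * ε e`
  have hj : ∀ f : MvPolynomial I (PowerSeries F), ∀ u ∈ W, τ.ρ (P.j f) u ∈ W := by
    intro f
    induction f using MvPolynomial.induction_on with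
    | C r =>
      intro u hu
      have h1 : P.j (C r) = algebraMap (PowerSeries F) Λ r := P.j.commutes r
      rw [h1, τ.sc]
      exact W.smul_mem _ hu
    | add f g hf hg =>
      intro u hu
      rw [map_add, map_add, LinearMap.add_apply]
      exact W.add_mem (hf u hu) (hg u hu)
    | mul_X f i hf =>
      intro u hu
      rw [map_mul, map_mul, Module.End.mul_apply]
      exact hf _ (hWy i u hu)
  intro z
  have hz : z ∈ Submodule.span (PowerSeries F) (Set.range P.b) := P.b.mem_span z
  induction hz using Submodule.span_induction with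
  | mem z hz =>
    obtain ⟨⟨α, e⟩, rfl⟩ := hz
    intro u hu
    rw [P.hb, map_mul, Module.End.mul_apply]
    exact hj _ _ (hWe e u hu)
  | zero =>
    intro u _
    rw [map_zero, LinearMap.zero_apply]
    exact W.zero_mem
  | add z z' _ _ hz hz' =>
    intro u hu
    rw [map_add, LinearMap.add_apply]
    exact W.add_mem (hz u hu) (hz' u hu)
  | smul r z _ hz =>
    intro u hu
    rw [rp_smul, LinearMap.smul_apply]
    exact W.smul_mem _ (hz u hu)

end Pool.Agent.PFC.B3.H81
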